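import Pool.Agent.V7H65.GP.Expand

set_option autoImplicit false
set_option linter.unusedSectionVars false

/-! Expanding systems in which the three variables of each equation are different. -/

namespace Pool.Agent.V7H65.GG

open Finset
open Pool.Agent.H550R2.Neg (rowT)
open Pool.Agent.H550R2.Lin (Base)
open Pool.Agent.V7H65.GP (hw exists_expanding)
open Pool.Agent.H30R2

theorem rowT_sub {m m' q : ℕ} (T : Fin m × Fin 3 → Fin q) (em : Fin m' ↪ Fin m)
    (S : Finset (Fin m')) :
    rowT (fun x : Fin m' × Fin 3 => T (em x.1, x.2)) S = rowT T (S.map em) := by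
  funext v
  unfold rowT
  rw [Finset.sum_map]
  rfl

/-- a row with a repeated variable is a variable -/
theorem deg_row {m q : ℕ} (T : Fin m × Fin 3 → Fin q) (j : Fin m)
    (h : ¬ Function.Injective fun l => T (j, l)) :
    ∃ v, ∀ a : Fin q → ZMod 2, NS.A T a j = a v := by
  have key : ∀ x y : ZMod 2, x + x + y = y ∧ x + y + x = y ∧ y + x + x = y := by decide
  have h2 : T (j, 0) = T (j, 1) ∨ T (j, 0) = T (j, 2) ∨ T (j, 1) = T (j, 2) := by
    by_contra hcon
    rw [not_or, not_or] at hcon
    obtain ⟨h01, h02, h12⟩ := hcon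
    apply h
    intro a b hab
    have hab' : T (j, a) = T (j, b) := hab
    fin_cases a <;> fin_cases b
    · rfl
    · exact absurd hab' h01
    · exact absurd hab' h02
    · exact absurd hab'.symm h01
    · rfl
    · exact absurd hab' h12
    · exact absurd hab'.symm h02
    · exact absurd hab'.symm h12
    · rfl
  rcases h2 with h2 | h2 | h2
  · refine ⟨T (j, 2), fun a => ?_⟩
    rw [NS.A_apply, Fin.sum_univ_three, ← h2]
    exact (key _ _).1
  · refine ⟨T (j, 1), fun a => ?_⟩
    rw [NS.A_apply, Fin.sum_univ_three, ← h2]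
    exact (key _ _).2.1
  · refine ⟨T (j, 0), fun a => ?_⟩
    rw [NS.A_apply, Fin.sum_univ_three, ← h2]
    exact (key _ _).2.2

open Classical in
theorem card_deg {m q t : ℕ} (T : Fin m × Fin 3 → Fin q) (hB : Base T t) (ht : 2 ≤ t) :
    Fintype.card {j : Fin m // ¬ Function.Injective fun l => T (j, l)} ≤ q := by
  choose f hf using fun j : {j : Fin m // ¬ Function.Injective fun l => T (j, l)} =>
    deg_row T j.1 j.2
  have hinj : Function.Injective f := by
    intro j j' h
    by_contra hne
    have hne' : j.1 ≠ j'.1 := fun h' => hne (Subtype.ext h')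
    have hc : ({j.1, j'.1} : Finset (Fin m)).card = 2 := Finset.card_pair hne'
    refine hB.low {j.1, j'.1} (by omega) (by omega) ?_
    funext v
    unfold rowT
    rw [Finset.sum_pair hne', hf j, hf j', h]
    exact CharTwo.add_self_eq_zero _
  have := Fintype.card_le_of_injective f hinj
  rwa [Fintype.card_fin] at this

/-- **The system.** -/
theorem exists_system (k : ℕ) (hk : 0 < k) :
    ∃ (m t : ℕ) (T : Fin m × Fin 3 → Fin (64800000000000000 * k)),
      (∀ j, Function.Injective fun l => T (j, l)) ∧ 1 ≤ t ∧ Base T t ∧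
      (∀ S : Finset (Fin m), t < S.card → S.card ≤ 2 * t → 4 * k < hw (rowT T S)) ∧
      149 * (64800000000000000 * k) ≤ m ∧ m ≤ 150 * (64800000000000000 * k) := by
  classical
  obtain ⟨q, hq⟩ : ∃ q, q = 64800000000000000 * k := ⟨_, rfl⟩
  rw [← hq]
  obtain ⟨T, hB, hE⟩ := exists_expanding 150 q (720000000 * k) (4 * k) (by norm_num) (by omega)
    (by rw [hq]; norm_num; omega) (by rw [hq]; norm_num; omega) (by norm_num; omega)
  obtain ⟨J, hJ⟩ : ∃ J : Finset (Fin (150 * q)),
    J = univ.filter fun j => Function.Injective fun l => T (j, l) := ⟨_, rfl⟩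
  have hdeg := card_deg T hB (by omega)
  have hJc : J.card + Fintype.card {j : Fin (150 * q) // ¬ Function.Injective fun l => T (j, l)} =
      150 * q := by
    rw [hJ, Fintype.card_subtype]
    have := Finset.card_filter_add_card_filter_not (s := (univ : Finset (Fin (150 * q))))
      (fun j => Function.Injective fun l => T (j, l))
    rw [Finset.card_univ, Fintype.card_fin] at this
    exact this
  have hJm : ∀ x ∈ J, Function.Injective fun l => T (x, l) := by
    intro x hx
    rw [hJ, Finset.mem_filter] at hx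
    exact hx.2
  obtain ⟨em, hem⟩ : ∃ em : Fin J.card ↪ Fin (150 * q), ∀ j, em j ∈ J :=
    ⟨(J.equivFin.symm.toEmbedding).trans (Function.Embedding.subtype _),
      fun j => (J.equivFin.symm j).2⟩
  refine ⟨J.card, 2 * (720000000 * k), fun x => T (em x.1, x.2), ?_, by omega, ⟨?_, ?_⟩, ?_, ?_, ?_⟩
  · intro j
    exact hJm _ (hem j)
  · intro S h1 h2
    rw [rowT_sub]
    exact hB.gap0 _ (by rwa [Finset.card_map]) (by rwa [Finset.card_map])
  · intro S h1 h2
    rw [rowT_sub]
    exact hB.low _ (by rwa [Finset.card_map]) (by rwa [Finset.card_map])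
  · intro S h1 h2
    rw [rowT_sub]
    exact hE _ (by rwa [Finset.card_map]) (by rwa [Finset.card_map])
  · omega
  · omega

end Pool.Agent.V7H65.GG
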