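import Pool.Agent.V7H65.GG.Sound
import Pool.Agent.V7H65.GG.Sub
import Pool.Agent.H550R2.Lift.GISym

set_option autoImplicit false
set_option linter.unusedSectionVars false

/-! Pairs of graphs that are far from isomorphic. -/

namespace Pool.Agent.V7H65.GG

open Finset
open Pool.Agent.H550R2.Lift (SDP ind V4 A4 bp bp_notMem edPerm edPerm_mk edPerm_one edPerm_mul gvec
  blkE fstB fstB_disj sym_all)
open Pool.Agent.H30R2

/-- The graphs have the same number of edges, at least one, and every bijection of the vertices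
maps at least the fraction `1 / 288` of the edges of `G` to nonedges of `G'`. -/
def Far {V : Type} (G G' : SimpleGraph V) : Prop :=
  G.edgeSet.Nonempty ∧ G.edgeSet.ncard = G'.edgeSet.ncard ∧
    ∀ φ : V ≃ V, G.edgeSet.ncard ≤ 288 * {e ∈ G.edgeSet | Sym2.map φ e ∉ G'.edgeSet}.ncard

section graph

variable {V : Type} {r q m D : ℕ} (tb : Fin r × Fin 4 ↪ V) (en : BI q m D ↪ Fin r)
  (T : Fin m × Fin 3 → Fin q)

/-- the graph of the system -/
def gG (b : Fin m → ZMod 2) : SimpleGraph V := SimpleGraph.fromEdgeSet (ES tb en T b)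

theorem ed_ne (b : Fin m → ZMod 2) (x : EI m D) : (ed tb en T b x).1 ≠ (ed tb en T b x).2 := by
  rcases x with ⟨j, l, i⟩ | ⟨j, l⟩ | ⟨j, s⟩
  · exact qv_ne_xv tb en _ _ _ _
  · exact cz_ne_qv tb en _ _ _
  · exact cz_ne_lf tb en _ _ _

theorem edgeSet_gG (b : Fin m → ZMod 2) : (gG tb en T b).edgeSet = ES tb en T b := by
  unfold gG
  rw [SimpleGraph.edgeSet_fromEdgeSet]
  ext e
  rw [Set.mem_sdiff]
  constructor
  · exact fun h => h.1
  · intro h
    refine ⟨h, ?_⟩
    obtain ⟨x, rfl⟩ := h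
    intro h1
    exact ed_ne tb en T b x (Sym2.mk_isDiag_iff.1 h1)

variable {T}

theorem edp_inj (hT : ∀ j, Function.Injective fun l => T (j, l)) (b : Fin m → ZMod 2) :
    Function.Injective fun x : EI m D => s((ed tb en T b x).1, (ed tb en T b x).2) := by
  intro x y h
  rcases x with ⟨j, l, i⟩ | ⟨j, l⟩ | ⟨j, s⟩ <;> rcases y with ⟨j', l', i'⟩ | ⟨j', l'⟩ | ⟨j', s'⟩
  · have h1 : s(qv tb en j l, xv tb en (T (j, i)) (co (b j) l i)) =
      s(qv tb en j' l', xv tb en (T (j', i')) (co (b j') l' i')) := h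
    rw [Sym2.eq_iff] at h1
    rcases h1 with ⟨h1, h2⟩ | ⟨h1, h2⟩
    · obtain ⟨rfl, rfl⟩ := qv_inj tb en h1
      have h3 : i = i' := hT j (xv_inj tb en h2).1
      rw [h3]
    · exact absurd h1 (qv_ne_xv tb en _ _ _ _)
  · have h1 : s(qv tb en j l, xv tb en (T (j, i)) (co (b j) l i)) =
      s(cz tb en j', qv tb en j' l') := h
    rw [Sym2.eq_iff] at h1
    rcases h1 with ⟨h1, h2⟩ | ⟨h1, h2⟩
    · exact absurd h1.symm (cz_ne_qv tb en _ _ _)
    · exact absurd h2.symm (cz_ne_xv tb en _ _ _)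
  · have h1 : s(qv tb en j l, xv tb en (T (j, i)) (co (b j) l i)) =
      s(cz tb en j', lf tb en j' s') := h
    rw [Sym2.eq_iff] at h1
    rcases h1 with ⟨h1, h2⟩ | ⟨h1, h2⟩
    · exact absurd h1.symm (cz_ne_qv tb en _ _ _)
    · exact absurd h2.symm (cz_ne_xv tb en _ _ _)
  · have h1 : s(cz tb en j, qv tb en j l) =
      s(qv tb en j' l', xv tb en (T (j', i')) (co (b j') l' i')) := h
    rw [Sym2.eq_iff] at h1
    rcases h1 with ⟨h1, h2⟩ | ⟨h1, h2⟩
    · exact absurd h1 (cz_ne_qv tb en _ _ _)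
    · exact absurd h1 (cz_ne_xv tb en _ _ _)
  · have h1 : s(cz tb en j, qv tb en j l) = s(cz tb en j', qv tb en j' l') := h
    rw [Sym2.eq_iff] at h1
    rcases h1 with ⟨h1, h2⟩ | ⟨h1, h2⟩
    · obtain ⟨rfl, rfl⟩ := qv_inj tb en h2
      rfl
    · exact absurd h1 (cz_ne_qv tb en _ _ _)
  · have h1 : s(cz tb en j, qv tb en j l) = s(cz tb en j', lf tb en j' s') := h
    rw [Sym2.eq_iff] at h1
    rcases h1 with ⟨h1, h2⟩ | ⟨h1, h2⟩
    · exact absurd h2.symm (lf_ne_qv tb en _ _ _ _)
    · exact absurd h1 (cz_ne_lf tb en _ _ _)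
  · have h1 : s(cz tb en j, lf tb en j s) =
      s(qv tb en j' l', xv tb en (T (j', i')) (co (b j') l' i')) := h
    rw [Sym2.eq_iff] at h1
    rcases h1 with ⟨h1, h2⟩ | ⟨h1, h2⟩
    · exact absurd h1 (cz_ne_qv tb en _ _ _)
    · exact absurd h1 (cz_ne_xv tb en _ _ _)
  · have h1 : s(cz tb en j, lf tb en j s) = s(cz tb en j', qv tb en j' l') := h
    rw [Sym2.eq_iff] at h1
    rcases h1 with ⟨h1, h2⟩ | ⟨h1, h2⟩
    · exact absurd h2 (lf_ne_qv tb en _ _ _ _)
    · exact absurd h1 (cz_ne_qv tb en _ _ _)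
  · have h1 : s(cz tb en j, lf tb en j s) = s(cz tb en j', lf tb en j' s') := h
    rw [Sym2.eq_iff] at h1
    rcases h1 with ⟨h1, h2⟩ | ⟨h1, h2⟩
    · obtain ⟨rfl, rfl⟩ := lf_inj tb en h2
      rfl
    · exact absurd h1 (cz_ne_lf tb en _ _ _)

theorem card_EI : Fintype.card (EI m D) = (16 + D) * m := by
  have h2 : Fintype.card (ZMod 2) = 2 := rfl
  simp only [Fintype.card_sum, Fintype.card_prod, Fintype.card_fin, h2]
  ring

theorem ncard_ES (hT : ∀ j, Function.Injective fun l => T (j, l)) (b : Fin m → ZMod 2) :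
    (ES tb en T b).ncard = (16 + D) * m := by
  unfold ES
  rw [← Set.image_univ, Set.ncard_image_of_injective _ (edp_inj tb en hT b), Set.ncard_univ,
    Nat.card_eq_fintype_card, card_EI]

open Classical in
theorem far_gG (en : BI q m 56 ↪ Fin r) (hm : 0 < m)
    (hT : ∀ j, Function.Injective fun l => T (j, l))
    {b : Fin m → ZMod 2} (hb : ∀ a, 9 * m ≤ 20 * NS.wt (NS.A T a + b)) :
    Far (gG tb en T 0) (gG tb en T b) := by
  refine ⟨?_, ?_, ?_⟩
  · rw [edgeSet_gG]
    exact ⟨_, ⟨Sum.inr (Sum.inl (⟨0, hm⟩, 0)), rfl⟩⟩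
  · rw [edgeSet_gG, edgeSet_gG, ncard_ES tb en hT, ncard_ES tb en hT]
  · intro φ
    rw [edgeSet_gG, edgeSet_gG, ncard_ES tb en hT]
    have h1 := sound (tb := tb) (en := en) hT (by norm_num) hb φ
    have h2 : {e ∈ ES tb en T 0 | Sym2.map φ e ∉ ES tb en T b}.ncard =
        (univ.filter fun x : EI m 56 =>
          s(φ (ed tb en T 0 x).1, φ (ed tb en T 0 x).2) ∉ ES tb en T b).card := by
      have h3 : {e ∈ ES tb en T 0 | Sym2.map φ e ∉ ES tb en T b} =
          (fun x : EI m 56 => s((ed tb en T 0 x).1, (ed tb en T 0 x).2)) ''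
          {x | s(φ (ed tb en T 0 x).1, φ (ed tb en T 0 x).2) ∉ ES tb en T b} := by
        ext e
        constructor
        · rintro ⟨⟨x, rfl⟩, hx⟩
          exact ⟨x, hx, rfl⟩
        · rintro ⟨x, hx, rfl⟩
          exact ⟨⟨x, rfl⟩, hx⟩
      rw [h3, Set.ncard_image_of_injective _ (edp_inj tb en hT 0)]
      rw [← Set.ncard_coe_finset]
      congr 1
      ext x
      rw [Finset.coe_filter]
      simp only [Finset.mem_univ, true_and]
    rw [h2]
    omega

end graph

/-- the constant -/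
def CC : ℕ := 563824800000000000000

theorem exists_pair (k : ℕ) (hk : 0 < k) : ∃ (q m t : ℕ) (T : Fin m × Fin 3 → Fin q)
    (b : Fin m → ZMod 2), 0 < m ∧
      (∀ j, Function.Injective fun l => T (j, l)) ∧ 1 ≤ t ∧ H550R2.Lin.Base T t ∧
      (∀ S : Finset (Fin m), t < S.card → S.card ≤ 2 * t → 4 * k < GP.hw (H550R2.Neg.rowT T S)) ∧
      (∀ a, 9 * m ≤ 20 * NS.wt (NS.A T a + b)) ∧ q + 58 * m ≤ CC * k ∧ 72 * m ≤ 2 * (CC * k) := by
  obtain ⟨m, t, T, hT, ht, hB, hE, hm1, hm2⟩ := exists_system k hk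
  obtain ⟨q, hq⟩ : ∃ q, q = 64800000000000000 * k := ⟨_, rfl⟩
  have hCk : CC * k = 8701 * q := by
    rw [hq]
    unfold CC
    ring
  revert T
  rw [← hq] at hm1 hm2 ⊢
  intro T hT hB hE
  have hq0 : 0 < q := by omega
  have hm0 : 0 < m := by omega
  obtain ⟨b, hb⟩ := NS.exists_far (V := Fin q) (γ := 1 / 20) (by norm_num) (m := m) (by
    rw [Fintype.card_fin]
    have h1 : (149 : ℝ) * q ≤ m := by exact_mod_cast hm1
    have h2 : (0 : ℝ) < q := by exact_mod_cast hq0
    have h3 := Real.log_two_lt_d9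
    nlinarith) T
  refine ⟨q, m, t, T, b, hm0, hT, ht, hB, hE, ?_, ?_, ?_⟩
  · intro a
    have h1 := hb a
    have h2 : (9 * m : ℝ) ≤ 20 * NS.wt (NS.A T a + b) := by linarith
    exact_mod_cast h2
  · rw [hCk]
    omega
  · rw [hCk]
    omega

theorem card_BI {q m : ℕ} : Fintype.card (BI q m 56) = q + 58 * m := by
  rw [Fintype.card_sum, Fintype.card_sum, Fintype.card_prod, Fintype.card_fin, Fintype.card_fin,
    Fintype.card_fin]
  ring

/-- **Two graphs far from isomorphic which are treated alike.** -/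
theorem gap_pair (V : Type) [Finite V] (r k : ℕ) (hk : 0 < k) (hr : CC * k ≤ r)
    (blk : Fin r → (Fin 4 ↪ V))
    (hd : Pairwise fun i j => Disjoint (Set.range (blk i)) (Set.range (blk j))) :
    ∃ G G' : SimpleGraph V, Far G G' ∧ G.edgeSet.ncard ≤ 2 * r ∧
      (∀ (D : Type) [Fintype D] [DecidableEq D] (P : SDP (Sym2 V) D),
        (∀ i, P.SymOn edPerm (blk i)) → Fintype.card D ^ 2 < 3 ^ k →
        (P.Acc (gvec G) ↔ P.Acc (gvec G'))) ∧
      ∀ (D : Type) [Fintype D] [DecidableEq D] (P : SDP (Sym2 (V ⊕ V)) D),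
        (∀ i, P.SymOn edPerm (fstB (blk i))) → Fintype.card D ^ 2 < 3 ^ k →
        ∀ H : SimpleGraph V, (P.Acc (gvec (G ⊕g H)) ↔ P.Acc (gvec (G' ⊕g H))) := by
  classical
  obtain ⟨q, m, t, T, b, hm, hT, ht, hB, hE, hb, h1, h2⟩ := exists_pair k hk
  obtain ⟨en⟩ : Nonempty (BI q m 56 ↪ Fin r) := by
    apply Function.Embedding.nonempty_of_card_le
    rw [card_BI, Fintype.card_fin]
    omega
  refine ⟨gG (blkE blk hd) en T 0, gG (blkE blk hd) en T b, far_gG _ en hm hT hb, ?_, ?_, ?_⟩
  · rw [edgeSet_gG, ncard_ES _ en hT]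
    omega
  · intro D _ _ P hP hD
    have key : ∀ b b', P.Acc (gvec (gG (blkE blk hd) en T b)) →
        P.Acc (gvec (gG (blkE blk hd) en T b')) := by
      intro b b' h
      have h3 := transferG (blkE blk hd) en T hm ht hB hE P
        (sym_all edPerm edPerm_one edPerm_mul blk hd hP) hD ∅ (fun _ _ => Iff.rfl) b b'
      rw [Set.union_empty, Set.union_empty] at h3
      have h4 : ∀ b, ind (ES (blkE blk hd) en T b) = gvec (gG (blkE blk hd) en T b) := by
        intro b
        unfold gvec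
        rw [edgeSet_gG]
      rw [h4, h4] at h3
      exact h3 h
    exact ⟨key 0 b, key b 0⟩
  · intro D _ _ P hP hD H
    obtain ⟨K, hK⟩ : ∃ K : Set (Sym2 (V ⊕ V)), K = Sym2.map Sum.inr '' H.edgeSet := ⟨_, rfl⟩
    have h3 : ∀ b, ES (blkE (fun i => fstB (blk i)) (fstB_disj hd)) en T b ∪ K =
        (gG (blkE blk hd) en T b ⊕g H).edgeSet := by
      intro b
      have h4 : ES (blkE (fun i => fstB (blk i)) (fstB_disj hd)) en T b =
          Sym2.map Sum.inl '' (gG (blkE blk hd) en T b).edgeSet := by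
        rw [edgeSet_gG]
        unfold ES
        rw [← Set.range_comp]
        congr 1
        funext x
        rcases x with ⟨j, l, i⟩ | ⟨j, l⟩ | ⟨j, s⟩ <;> rfl
      rw [h4, hK]
      ext e
      induction e using Sym2.ind with
      | _ u w =>
        rw [Set.mem_union, SimpleGraph.mem_edgeSet]
        constructor
        · rintro (⟨e, he, h⟩ | ⟨e, he, h⟩)
          · induction e using Sym2.ind with
            | _ x y =>
              rw [Sym2.map_mk, Sym2.eq_iff] at h
              rcases h with ⟨rfl, rfl⟩ | ⟨rfl, rfl⟩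
              · exact he
              · exact he.symm
          · induction e using Sym2.ind with
            | _ x y =>
              rw [Sym2.map_mk, Sym2.eq_iff] at h
              rcases h with ⟨rfl, rfl⟩ | ⟨rfl, rfl⟩
              · exact he
              · exact he.symm
        · rcases u with u | u <;> rcases w with w | w
          · intro h
            exact Or.inl ⟨s(u, w), h, rfl⟩
          · intro h
            exact absurd h Bool.false_ne_true
          · intro h
            exact absurd h Bool.false_ne_true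
          · intro h
            exact Or.inr ⟨s(u, w), h, rfl⟩
    have hfix : ∀ (γ : Fin r → A4) (e : Sym2 (V ⊕ V)), e ∈ K →
        edPerm (bp (blkE (fun i => fstB (blk i)) (fstB_disj hd)) γ) e = e := by
      intro γ e he
      rw [hK] at he
      obtain ⟨e, -, rfl⟩ := he
      have h5 : ∀ x : V, bp (blkE (fun i => fstB (blk i)) (fstB_disj hd)) γ (Sum.inr x) =
          Sum.inr x := by
        intro x
        rw [bp_notMem]
        rintro ⟨⟨i, c⟩, h⟩
        exact absurd h (by
          show ¬ (Sum.inl (blk i c) : V ⊕ V) = Sum.inr x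
          simp)
      induction e using Sym2.ind with
      | _ x y =>
        rw [Sym2.map_mk, edPerm_mk, h5, h5]
    have hKi : ∀ (γ : Fin r → A4) (e : Sym2 (V ⊕ V)),
        edPerm (bp (blkE (fun i => fstB (blk i)) (fstB_disj hd)) γ) e ∈ K ↔ e ∈ K := by
      intro γ e
      constructor
      · intro h
        have h5 := hfix γ _ h
        rw [(edPerm (bp (blkE (fun i => fstB (blk i)) (fstB_disj hd)) γ)).injective h5] at h
        exact h
      · intro h
        rw [hfix γ e h]
        exact h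
    have key : ∀ b b', P.Acc (gvec (gG (blkE blk hd) en T b ⊕g H)) →
        P.Acc (gvec (gG (blkE blk hd) en T b' ⊕g H)) := by
      intro b b' h
      have h5 := transferG (blkE (fun i => fstB (blk i)) (fstB_disj hd)) en T hm ht hB hE P
        (sym_all edPerm edPerm_one edPerm_mul _ (fstB_disj hd) hP) hD K hKi b b'
      rw [h3, h3] at h5
      exact h5 h
    exact ⟨key 0 b, key b 0⟩

/-- `Far` does not depend on the names of the vertices of the first graph. -/
theorem far_comap {V : Type} [Finite V] {G H : SimpleGraph V} (h : Far G H) (p : Equiv.Perm V) :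
    Far (G.comap p) H := by
  have h1 : (G.comap p).edgeSet = edPerm p ⁻¹' G.edgeSet := by
    ext e
    induction e using Sym2.ind with
    | _ u w => exact Iff.rfl
  have h2 : ∀ S : Set (Sym2 V), (edPerm p ⁻¹' S).ncard = S.ncard := by
    intro S
    rw [← Set.ncard_image_of_injective _ (edPerm p).injective,
      Set.image_preimage_eq _ (edPerm p).surjective]
  refine ⟨?_, ?_, ?_⟩
  · obtain ⟨e, he⟩ := h.1
    refine ⟨(edPerm p).symm e, ?_⟩
    rw [h1, Set.mem_preimage, Equiv.apply_symm_apply]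
    exact he
  · rw [h1, h2]
    exact h.2.1
  · intro φ
    have h3 : {e ∈ (G.comap p).edgeSet | Sym2.map φ e ∉ H.edgeSet} =
        edPerm p ⁻¹' {e ∈ G.edgeSet | Sym2.map ((Equiv.symm p).trans φ) e ∉ H.edgeSet} := by
      rw [h1]
      ext e
      induction e using Sym2.ind with
      | _ u w =>
        show _ ∧ s(φ u, φ w) ∉ H.edgeSet ↔ _ ∧ s(φ (p.symm (p u)), φ (p.symm (p w))) ∉ H.edgeSet
        rw [Equiv.symm_apply_apply, Equiv.symm_apply_apply]
        exact Iff.rfl
    rw [h3, h1, h2, h2]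
    exact h.2.2 _

/-- The program accepts the isomorphic pairs and rejects the pairs which are far from isomorphic
(if `b` holds), or the other way round (if `b` does not hold). -/
def Sep {V D : Type} (P : SDP (Sym2 (V ⊕ V)) D) (b : Prop) : Prop :=
  ∀ G H : SimpleGraph V, (Nonempty (G ≃g H) → (P.Acc (gvec (G ⊕g H)) ↔ b)) ∧
    (Far G H → (P.Acc (gvec (G ⊕g H)) ↔ ¬ b))

theorem sep_upper (V D : Type) [Finite V] [Fintype D] [DecidableEq D] (P : SDP (Sym2 (V ⊕ V)) D)
    (b : Prop) (hP : Sep P b) (r : ℕ) (blk : Fin r → (Fin 4 ↪ V))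
    (hd : Pairwise fun i j => Disjoint (Set.range (blk i)) (Set.range (blk j))) :
    ∃ (D' : Type) (_ : Fintype D') (_ : DecidableEq D') (P' : SDP (Sym2 (V ⊕ V)) D'),
      Fintype.card D' = 12 ^ r * Fintype.card D ∧ (∀ i, P'.SymOn edPerm (fstB (blk i))) ∧
      Sep P' b := by
  classical
  refine ⟨(Fin r → A4) × D, inferInstance, inferInstance,
    P.symm (fun γ => edPerm (bp (blkE (fun i => fstB (blk i)) (fstB_disj hd)) γ)), ?_,
    P.symm_sym edPerm edPerm_mul _ (fstB_disj hd), ?_⟩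
  · rw [Fintype.card_prod, Fintype.card_fun, H550R2.Lift.card_A4, Fintype.card_fin]
  · intro G H
    have h1 : ∀ γ : Fin r → A4, (fun e => gvec (G ⊕g H)
        (edPerm (bp (blkE (fun i => fstB (blk i)) (fstB_disj hd)) γ) e)) =
        gvec ((G.comap (bp (blkE blk hd) γ)) ⊕g H) := by
      intro γ
      have h2 : ∀ x : V, bp (blkE (fun i => fstB (blk i)) (fstB_disj hd)) γ (Sum.inl x) =
          Sum.inl (bp (blkE blk hd) γ x) := by
        intro x
        by_cases hx : x ∈ Set.range (blkE blk hd)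
        · obtain ⟨⟨i, c⟩, rfl⟩ := hx
          rw [H550R2.Lift.bp_apply]
          exact H550R2.Lift.bp_apply (blkE (fun i => fstB (blk i)) (fstB_disj hd)) γ i c
        · rw [bp_notMem _ _ hx, bp_notMem]
          rintro ⟨⟨i, c⟩, h⟩
          exact hx ⟨(i, c), Sum.inl_injective h⟩
      have h3 : ∀ x : V, bp (blkE (fun i => fstB (blk i)) (fstB_disj hd)) γ (Sum.inr x) =
          Sum.inr x := by
        intro x
        rw [bp_notMem]
        rintro ⟨⟨i, c⟩, h⟩
        exact absurd h (by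
          show ¬ (Sum.inl (blk i c) : V ⊕ V) = Sum.inr x
          simp)
      have h4 : (fun e => gvec (G ⊕g H)
        (edPerm (bp (blkE (fun i => fstB (blk i)) (fstB_disj hd)) γ) e)) =
        ind (edPerm (bp (blkE (fun i => fstB (blk i)) (fstB_disj hd)) γ) ⁻¹'
          (G ⊕g H).edgeSet) := rfl
      rw [h4]
      unfold gvec
      congr 1
      ext e
      induction e using Sym2.ind with
      | _ a b =>
        rw [Set.mem_preimage, edPerm_mk, SimpleGraph.mem_edgeSet, SimpleGraph.mem_edgeSet]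
        rcases a with a | a <;> rcases b with b | b
        · rw [h2, h2]; exact Iff.rfl
        · rw [h2, h3]; exact Iff.rfl
        · rw [h3, h2]; exact Iff.rfl
        · rw [h3, h3]; exact Iff.rfl
    refine ⟨fun h => ?_, fun h => ?_⟩
    · have key : ∀ γ : Fin r → A4, P.Acc (fun e => gvec (G ⊕g H)
          (edPerm (bp (blkE (fun i => fstB (blk i)) (fstB_disj hd)) γ) e)) ↔ b := by
        intro γ
        rw [h1]
        refine (hP _ _).1 ?_
        obtain ⟨f⟩ := H550R2.Lift.comap_iso G (bp (blkE blk hd) γ)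
        obtain ⟨g⟩ := h
        exact ⟨f.trans g⟩
      rw [SDP.symm_acc]
      exact ⟨fun h => (key 1).1 (h 1), fun h γ => (key γ).2 h⟩
    · have key : ∀ γ : Fin r → A4, P.Acc (fun e => gvec (G ⊕g H)
          (edPerm (bp (blkE (fun i => fstB (blk i)) (fstB_disj hd)) γ) e)) ↔ ¬ b := by
        intro γ
        rw [h1]
        exact (hP _ _).2 (far_comap h _)
      rw [SDP.symm_acc]
      exact ⟨fun h => (key 1).1 (h 1), fun h γ => (key γ).2 h⟩

end Pool.Agent.V7H65.GG
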