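import Pool.Agent.V7H65.GP.Expand
import Pool.Agent.H550R2.Lift.GraphInput

set_option autoImplicit false
set_option linter.unusedSectionVars false

/-! The graphs of a system of equations, and the transfer theorem. -/

namespace Pool.Agent.V7H65.GG

open Finset
open Pool.Agent.H550R2.Lift (SDP ind V4 A4 trA sg sg_zero sg_one sg_add sg_mul_self core pr wt dt dt_add cd
  cd_inj cd_surj tr tr_cd bp bp_apply bp_notMem bp_mul edPerm edPerm_mk edPerm_mul additive_eq
  trA_zero zmod2_cases pr_add_left)
open Pool.Agent.H550R2.Neg (rowT pr_rowT rowT_empty rowT_symmDiff sum_symmDiff)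
open Pool.Agent.H550R2.Lin (Base symmDiff_le)
open Pool.Agent.V7H65.GP (hw)
open Pool.Agent.H30R2

/-- the values of the three variables at a vertex of an equation -/
def co (b : ZMod 2) (l : V4) : Fin 3 → ZMod 2 := ![l.1, l.2, b + l.1 + l.2]

theorem co_shift : ∀ (b y0 y1 y2 : ZMod 2) (l : V4) (i : Fin 3),
    co (b + (y0 + y1 + y2)) (l + (y0, y1)) i = co b l i + (![y0, y1, y2] : Fin 3 → ZMod 2) i := by
  unfold co
  decide

/-- indices of edges: a vertex of an equation and a variable; the centre of an equation and a vertex;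
the centre and a leaf -/
abbrev EI (m D : ℕ) := (Fin m × V4 × Fin 3) ⊕ ((Fin m × V4) ⊕ (Fin m × Fin D))

/-- indices of blocks: variables, equations, centres and leaves -/
abbrev BI (q m D : ℕ) := (Fin q ⊕ Fin m) ⊕ (Fin m × Fin (D + 1))

section graph

variable {U : Type} {r q m D : ℕ} (tb : Fin r × Fin 4 ↪ U) (en : BI q m D ↪ Fin r)
  (T : Fin m × Fin 3 → Fin q)

/-- vertices of variables -/
def xv (v : Fin q) (a : ZMod 2) : U := tb (en (Sum.inl (Sum.inl v)), cd (a, 0))

/-- vertices of equations -/
def qv (j : Fin m) (l : V4) : U := tb (en (Sum.inl (Sum.inr j)), cd l)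

/-- centres of equations -/
def cz (j : Fin m) : U := tb (en (Sum.inr (j, 0)), 0)

/-- leaves of equations -/
def lf (j : Fin m) (s : Fin D) : U := tb (en (Sum.inr (j, s.succ)), 0)

/-- the end points of an edge -/
def ed (b : Fin m → ZMod 2) : EI m D → U × U
  | .inl (j, l, i) => (qv tb en j l, xv tb en (T (j, i)) (co (b j) l i))
  | .inr (.inl (j, l)) => (cz tb en j, qv tb en j l)
  | .inr (.inr (j, s)) => (cz tb en j, lf tb en j s)

/-- the edges -/
def ES (b : Fin m → ZMod 2) : Set (Sym2 U) :=
  Set.range fun x : EI m D => s((ed tb en T b x).1, (ed tb en T b x).2)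

/-- the translations of the blocks -/
noncomputable def tau (y : Fin q → ZMod 2) : Fin r → V4 :=
  Function.extend en (fun x : BI q m D => match x with
    | .inl (.inl v) => ((y v, 0) : V4)
    | .inl (.inr j) => (y (T (j, 0)), y (T (j, 1)))
    | .inr _ => 0) 0

theorem tau_v (y : Fin q → ZMod 2) (v : Fin q) :
    tau en T y (en (Sum.inl (Sum.inl v))) = (y v, 0) := en.injective.extend_apply _ _ _

theorem tau_q (y : Fin q → ZMod 2) (j : Fin m) :
    tau en T y (en (Sum.inl (Sum.inr j))) = (y (T (j, 0)), y (T (j, 1))) :=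
  en.injective.extend_apply _ _ _

theorem tau_e (y : Fin q → ZMod 2) (p : Fin m × Fin (D + 1)) :
    tau en T y (en (Sum.inr p)) = 0 := en.injective.extend_apply _ _ _

theorem tau_out (y : Fin q → ZMod 2) (i : Fin r) (h : ¬ ∃ x, en x = i) :
    tau en T y i = 0 := Function.extend_apply' _ _ i h

theorem tau_add (y y' : Fin q → ZMod 2) : tau en T (y + y') = tau en T y + tau en T y' := by
  ext1 i
  rw [Pi.add_apply]
  by_cases h : ∃ x, en x = i
  · obtain ⟨(v | j) | p, rfl⟩ := h
    · rw [tau_v, tau_v, tau_v]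
      show ((y v + y' v, 0) : V4) = (y v + y' v, 0 + 0)
      rw [add_zero]
    · rw [tau_q, tau_q, tau_q]
      rfl
    · rw [tau_e, tau_e, tau_e, add_zero]
  · rw [tau_out en T _ i h, tau_out en T _ i h, tau_out en T _ i h, add_zero]

/-- the group element -/
noncomputable def gg (y : Fin q → ZMod 2) : Fin r → A4 := fun i => trA (tau en T y i)

theorem bp_gen (y : Fin q → ZMod 2) (i : Fin r) (l : V4) :
    bp tb (gg en T y) (tb (i, cd l)) = tb (i, cd (l + tau en T y i)) := by
  rw [bp_apply]
  show tb (i, tr (tau en T y i) (cd l)) = _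
  rw [tr_cd]

theorem bp_xv (y : Fin q → ZMod 2) (v : Fin q) (a : ZMod 2) :
    bp tb (gg en T y) (xv tb en v a) = xv tb en v (a + y v) := by
  unfold xv
  rw [bp_gen, tau_v]
  have : ((a, 0) : V4) + (y v, 0) = (a + y v, 0) := by
    show ((a + y v, 0 + 0) : V4) = (a + y v, 0)
    rw [add_zero]
  rw [this]

theorem bp_qv (y : Fin q → ZMod 2) (j : Fin m) (l : V4) :
    bp tb (gg en T y) (qv tb en j l) = qv tb en j (l + (y (T (j, 0)), y (T (j, 1)))) := by
  unfold qv
  rw [bp_gen, tau_q]

theorem bp_e (y : Fin q → ZMod 2) (p : Fin m × Fin (D + 1)) :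
    bp tb (gg en T y) (tb (en (Sum.inr p), 0)) = tb (en (Sum.inr p), 0) := by
  rw [bp_apply]
  show tb (en (Sum.inr p), tr (tau en T y (en (Sum.inr p))) 0) = _
  rw [tau_e]
  rfl

theorem ed_act (b : Fin m → ZMod 2) (y : Fin q → ZMod 2) {e : Sym2 U}
    (he : e ∈ ES tb en T b) : edPerm (bp tb (gg en T y)) e ∈ ES tb en T (b + NS.A T y) := by
  obtain ⟨x, rfl⟩ := he
  show edPerm (bp tb (gg en T y)) s((ed tb en T b x).1, (ed tb en T b x).2) ∈ _
  rw [edPerm_mk]
  rcases x with ⟨j, l, i⟩ | ⟨j, l⟩ | ⟨j, s⟩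
  · refine ⟨Sum.inl (j, l + (y (T (j, 0)), y (T (j, 1))), i), ?_⟩
    show s(qv tb en j (l + (y (T (j, 0)), y (T (j, 1)))), xv tb en (T (j, i))
      (co ((b + NS.A T y) j) (l + (y (T (j, 0)), y (T (j, 1)))) i)) =
      s(bp tb (gg en T y) (qv tb en j l), bp tb (gg en T y) (xv tb en (T (j, i)) (co (b j) l i)))
    rw [bp_qv, bp_xv]
    have h1 : co ((b + NS.A T y) j) (l + (y (T (j, 0)), y (T (j, 1)))) i =
        co (b j) l i + y (T (j, i)) := by
      rw [Pi.add_apply, NS.A_apply, Fin.sum_univ_three, co_shift]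
      congr 1
      fin_cases i <;> rfl
    rw [h1]
  · refine ⟨Sum.inr (Sum.inl (j, l + (y (T (j, 0)), y (T (j, 1))))), ?_⟩
    show s(cz tb en j, qv tb en j (l + (y (T (j, 0)), y (T (j, 1))))) =
      s(bp tb (gg en T y) (cz tb en j), bp tb (gg en T y) (qv tb en j l))
    rw [bp_qv]
    unfold cz
    rw [bp_e]
  · refine ⟨Sum.inr (Sum.inr (j, s)), ?_⟩
    show s(cz tb en j, lf tb en j s) =
      s(bp tb (gg en T y) (cz tb en j), bp tb (gg en T y) (lf tb en j s))
    unfold cz lf
    rw [bp_e, bp_e]

theorem gg_mul_self (y : Fin q → ZMod 2) : gg en T y * gg en T y = 1 := by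
  ext1 i
  show trA (tau en T y i) * trA (tau en T y i) = 1
  have h3 : ∀ a : V4, a + a = 0 := by decide
  rw [← H550R2.Lift.trA_add, h3, trA_zero]

theorem ed_act_iff (b : Fin m → ZMod 2) (y : Fin q → ZMod 2) (e : Sym2 U) :
    edPerm (bp tb (gg en T y)) e ∈ ES tb en T (b + NS.A T y) ↔ e ∈ ES tb en T b := by
  constructor
  · intro h
    have h1 := ed_act tb en T _ y h
    rw [← Equiv.Perm.mul_apply, ← edPerm_mul, ← bp_mul, gg_mul_self, H550R2.Lift.bp_one,
      H550R2.Lift.edPerm_one] at h1
    have h2 : b + NS.A T y + NS.A T y = b := by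
      funext j
      simp only [Pi.add_apply]
      have := CharTwo.add_self_eq_zero (NS.A T y j)
      linear_combination this
    rwa [h2] at h1
  · exact ed_act tb en T b y

theorem ed_congr {b b' : Fin m → ZMod 2} (x : EI m D)
    (h : ∀ j l i, x = Sum.inl (j, l, i) → b j = b' j) : ed tb en T b x = ed tb en T b' x := by
  rcases x with ⟨j, l, i⟩ | ⟨j, l⟩ | ⟨j, s⟩
  · show (qv tb en j l, xv tb en (T (j, i)) (co (b j) l i)) =
      (qv tb en j l, xv tb en (T (j, i)) (co (b' j) l i))
    rw [h j l i rfl]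
  · rfl
  · rfl

theorem qv_inj {j j' : Fin m} {l l' : V4} (h : qv tb en j l = qv tb en j' l') :
    j = j' ∧ l = l' := by
  have h1 := tb.injective h
  simp only [Prod.mk.injEq] at h1
  have h2 := en.injective h1.1
  simp only [Sum.inl.injEq, Sum.inr.injEq] at h2
  exact ⟨h2, cd_inj h1.2⟩

theorem xv_inj {v v' : Fin q} {a a' : ZMod 2} (h : xv tb en v a = xv tb en v' a') :
    v = v' ∧ a = a' := by
  have h1 := tb.injective h
  simp only [Prod.mk.injEq] at h1
  have h2 := en.injective h1.1
  simp only [Sum.inl.injEq] at h2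
  exact ⟨h2, congrArg Prod.fst (cd_inj h1.2)⟩

theorem cz_inj {j j' : Fin m} (h : cz tb en j = cz tb en j') : j = j' := by
  have h1 := tb.injective h
  simp only [Prod.mk.injEq] at h1
  have h2 := en.injective h1.1
  simp only [Sum.inr.injEq, Prod.mk.injEq] at h2
  exact h2.1

theorem lf_inj {j j' : Fin m} {s s' : Fin D} (h : lf tb en j s = lf tb en j' s') :
    j = j' ∧ s = s' := by
  have h1 := tb.injective h
  simp only [Prod.mk.injEq] at h1
  have h2 := en.injective h1.1
  simp only [Sum.inr.injEq, Prod.mk.injEq] at h2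
  exact ⟨h2.1, Fin.succ_injective _ h2.2⟩

theorem qv_ne_xv (j : Fin m) (l : V4) (v : Fin q) (a : ZMod 2) :
    qv tb en j l ≠ xv tb en v a := by
  intro h
  have h1 := tb.injective h
  simp only [Prod.mk.injEq] at h1
  have h2 := en.injective h1.1
  simp at h2

theorem cz_ne_xv (j : Fin m) (v : Fin q) (a : ZMod 2) : cz tb en j ≠ xv tb en v a := by
  intro h
  have h1 := tb.injective h
  simp only [Prod.mk.injEq] at h1
  have h2 := en.injective h1.1
  simp at h2

theorem cz_ne_qv (j j' : Fin m) (l : V4) : cz tb en j ≠ qv tb en j' l := by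
  intro h
  have h1 := tb.injective h
  simp only [Prod.mk.injEq] at h1
  have h2 := en.injective h1.1
  simp at h2

theorem cz_ne_lf (j j' : Fin m) (s : Fin D) : cz tb en j ≠ lf tb en j' s := by
  intro h
  have h1 := tb.injective h
  simp only [Prod.mk.injEq] at h1
  have h2 := en.injective h1.1
  simp only [Sum.inr.injEq, Prod.mk.injEq] at h2
  exact (Fin.succ_ne_zero s) h2.2.symm

theorem lf_ne_xv (j : Fin m) (s : Fin D) (v : Fin q) (a : ZMod 2) :
    lf tb en j s ≠ xv tb en v a := by
  intro h
  have h1 := tb.injective h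
  simp only [Prod.mk.injEq] at h1
  have h2 := en.injective h1.1
  simp at h2

theorem lf_ne_qv (j : Fin m) (s : Fin D) (j' : Fin m) (l : V4) :
    lf tb en j s ≠ qv tb en j' l := by
  intro h
  have h1 := tb.injective h
  simp only [Prod.mk.injEq] at h1
  have h2 := en.injective h1.1
  simp at h2

theorem ES_node (hm : 0 < m) (e : Sym2 U) : ∃ j : Fin m, ∀ b b' : Fin m → ZMod 2, b j = b' j →
    (e ∈ ES tb en T b ↔ e ∈ ES tb en T b') := by
  by_cases h : ∃ j l w, e = s(qv tb en j l, w) ∧ ∃ v a, w = xv tb en v a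
  · obtain ⟨j, l, w, rfl, v, a, rfl⟩ := h
    have key : ∀ b b' : Fin m → ZMod 2, b j = b' j →
        s(qv tb en j l, xv tb en v a) ∈ ES tb en T b → s(qv tb en j l, xv tb en v a) ∈ ES tb en T b' := by
      rintro b b' hb ⟨x, hx⟩
      refine ⟨x, ?_⟩
      show s((ed tb en T b' x).1, (ed tb en T b' x).2) = _
      rw [← ed_congr (b := b) tb en T x ?_]
      · exact hx
      · rintro j' l' i rfl
        have h1 : s(qv tb en j' l', xv tb en (T (j', i)) (co (b j') l' i)) =
            s(qv tb en j l, xv tb en v a) := hx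
        rw [Sym2.eq_iff] at h1
        rcases h1 with ⟨h1, -⟩ | ⟨h1, -⟩
        · rw [(qv_inj tb en h1).1, hb]
        · exact absurd h1 (qv_ne_xv tb en _ _ _ _)
    exact ⟨j, fun b b' hb => ⟨key b b' hb, key b' b hb.symm⟩⟩
  · refine ⟨⟨0, hm⟩, ?_⟩
    have key : ∀ b b' : Fin m → ZMod 2, e ∈ ES tb en T b → e ∈ ES tb en T b' := by
      rintro b b' ⟨x, rfl⟩
      refine ⟨x, ?_⟩
      show s((ed tb en T b' x).1, (ed tb en T b' x).2) = s((ed tb en T b x).1, (ed tb en T b x).2)
      rw [← ed_congr (b := b) tb en T x ?_]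
      rintro j' l' i rfl
      exact absurd ⟨j', l', _, rfl, _, _, rfl⟩ h
    exact fun b b' _ => ⟨key b b', key b' b⟩

/-- the weight of the characters -/
theorem hw_Tp (p : Fin r → V4) :
    hw (fun v : Fin q => dt p (tau en T (Pi.single v 1))) ≤ 2 * wt p := by
  classical
  let f : Fin r × Fin 2 → Option (Fin q) := fun x =>
    if h : ∃ y, en y = x.1 then
      match h.choose with
      | .inl (.inl v) => some v
      | .inl (.inr j) => some (if x.2 = 0 then T (j, 0) else T (j, 1))
      | .inr _ => none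
    else none
  have hf : ∀ y c, f (en y, c) = match y with
      | .inl (.inl v) => some v
      | .inl (.inr j) => some (if c = 0 then T (j, 0) else T (j, 1))
      | .inr _ => none := by
    intro y c
    have hex : ∃ y', en y' = en y := ⟨y, rfl⟩
    have h1 : hex.choose = y := en.injective hex.choose_spec
    show (if h : ∃ y', en y' = en y then
      (match h.choose with
      | .inl (.inl v) => some v
      | .inl (.inr j) => some (if c = 0 then T (j, 0) else T (j, 1))
      | .inr _ => none) else none) = _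
    rw [dif_pos hex, h1]
  have hsub : ((univ.filter fun v : Fin q => dt p (tau en T (Pi.single v 1)) ≠ 0).image
      (some : Fin q → Option (Fin q))) ⊆
      ((univ.filter fun i : Fin r => p i ≠ 0) ×ˢ (univ : Finset (Fin 2))).image f := by
    intro o ho
    rw [Finset.mem_image] at ho
    obtain ⟨v, hv, rfl⟩ := ho
    rw [Finset.mem_filter] at hv
    have h1 : ∃ i, H550R2.Lift.dot (p i) (tau en T (Pi.single v 1) i) ≠ 0 := by
      by_contra hcon
      rw [not_exists] at hcon
      apply hv.2
      unfold dt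
      exact Finset.sum_eq_zero fun i _ => not_not.1 (hcon i)
    obtain ⟨i, hi⟩ := h1
    have hpi : p i ≠ 0 := by
      intro h
      apply hi
      rw [h]
      simp [H550R2.Lift.dot]
    have hti : tau en T (Pi.single v 1) i ≠ 0 := by
      intro h
      apply hi
      rw [h]
      simp [H550R2.Lift.dot]
    rw [Finset.mem_image]
    by_cases h : ∃ y, en y = i
    · obtain ⟨y, rfl⟩ := h
      rcases y with (w | j) | e
      · refine ⟨(en (Sum.inl (Sum.inl w)), 0), ?_, ?_⟩
        · rw [Finset.mem_product, Finset.mem_filter]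
          exact ⟨⟨mem_univ _, hpi⟩, mem_univ _⟩
        · rw [hf]
          show some w = some v
          rw [tau_v] at hti
          by_contra hne
          apply hti
          have h3 : (Pi.single v (1 : ZMod 2) : Fin q → ZMod 2) w = 0 :=
            Pi.single_eq_of_ne (fun h => hne (by rw [h])) _
          rw [h3]
          rfl
      · rw [tau_q] at hti
        by_cases h0 : T (j, 0) = v
        · refine ⟨(en (Sum.inl (Sum.inr j)), 0), ?_, ?_⟩
          · rw [Finset.mem_product, Finset.mem_filter]
            exact ⟨⟨mem_univ _, hpi⟩, mem_univ _⟩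
          · rw [hf]
            show some (if (0 : Fin 2) = 0 then T (j, 0) else T (j, 1)) = some v
            rw [if_pos rfl, h0]
        · by_cases h1 : T (j, 1) = v
          · refine ⟨(en (Sum.inl (Sum.inr j)), 1), ?_, ?_⟩
            · rw [Finset.mem_product, Finset.mem_filter]
              exact ⟨⟨mem_univ _, hpi⟩, mem_univ _⟩
            · rw [hf]
              show some (if (1 : Fin 2) = 0 then T (j, 0) else T (j, 1)) = some v
              rw [if_neg (by decide), h1]
          · exfalso
            apply hti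
            rw [Pi.single_eq_of_ne h0, Pi.single_eq_of_ne h1]
            rfl
      · exact absurd (tau_e en T _ e) hti
    · exact absurd (tau_out en T _ i h) hti
  have h2 := Finset.card_le_card hsub
  rw [Finset.card_image_of_injective _ (Option.some_injective _)] at h2
  refine h2.trans (Finset.card_image_le.trans ?_)
  rw [Finset.card_product, Finset.card_univ, Fintype.card_fin]
  unfold wt
  omega

/-- **Transfer.** -/
theorem transferG (hm : 0 < m) {t k : ℕ} (ht : 1 ≤ t) (hB : Base T t)
    (hE : ∀ S : Finset (Fin m), t < S.card → S.card ≤ 2 * t → 4 * k < hw (rowT T S))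
    {D' : Type} [Fintype D'] [DecidableEq D'] (P : SDP (Sym2 U) D')
    (hsym : ∀ γ, ∃ O, P.IsAut (edPerm (bp tb γ)) O)
    (hD : Fintype.card D' ^ 2 < 3 ^ k) (K : Set (Sym2 U))
    (hK : ∀ γ e, edPerm (bp tb γ) e ∈ K ↔ e ∈ K) (b b' : Fin m → ZMod 2)
    (hacc : P.Acc (ind (ES tb en T b ∪ K))) : P.Acc (ind (ES tb en T b' ∪ K)) := by
  classical
  let e : (Fin q → ZMod 2) → ℝ := fun S =>
    if h : ∃ U : Finset (Fin m), U.card ≤ t ∧ rowT T U = S then
      sg (∑ j ∈ h.choose, (b j + b' j)) else 0
  have he : ∀ U : Finset (Fin m), U.card ≤ t → e (rowT T U) = sg (∑ j ∈ U, (b j + b' j)) := by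
    intro U hU
    have hex : ∃ U' : Finset (Fin m), U'.card ≤ t ∧ rowT T U' = rowT T U := ⟨U, hU, rfl⟩
    show (if h : ∃ U' : Finset (Fin m), U'.card ≤ t ∧ rowT T U' = rowT T U then
      sg (∑ j ∈ h.choose, (b j + b' j)) else 0) = _
    rw [dif_pos hex, hB.inj hex.choose_spec.1 hU hex.choose_spec.2]
  have he' : ∀ S, e S ≠ 0 → ∃ U : Finset (Fin m), U.card ≤ t ∧ rowT T U = S := by
    intro S hS
    by_contra hn
    apply hS
    exact dif_neg hn
  have he0 : e 0 = 1 := by
    have := he ∅ (by rw [Finset.card_empty]; exact Nat.zero_le _)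
    rw [rowT_empty, Finset.sum_empty, sg_zero] at this
    exact this
  let Tp : (Fin r → V4) → (Fin q → ZMod 2) := fun p v => dt p (tau en T (Pi.single v 1))
  have hTp : ∀ p y, dt p (tau en T y) = pr (Tp p) y := by
    intro p y
    exact additive_eq (fun y => dt p (tau en T y)) (fun y y' => by
      show dt p (tau en T (y + y')) = _
      rw [tau_add, dt_add]) y
  have hwadd : ∀ x y : Fin q → ZMod 2, hw (x + y) ≤ hw x + hw y := by
    intro x y
    unfold hw
    refine (Finset.card_le_card ?_).trans (Finset.card_union_le _ _)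
    intro j hj
    rw [Finset.mem_filter] at hj
    rw [Finset.mem_union, Finset.mem_filter, Finset.mem_filter]
    by_contra hcon
    rw [not_or] at hcon
    apply hj.2
    have h1 : x j = 0 := by
      by_contra h
      exact hcon.1 ⟨mem_univ _, h⟩
    have h2 : y j = 0 := by
      by_contra h
      exact hcon.2 ⟨mem_univ _, h⟩
    rw [Pi.add_apply, h1, h2, add_zero]
  refine core P (fun γ => edPerm (bp tb γ)) (fun γ γ' => by rw [bp_mul, edPerm_mul])
    hsym (tau en T) Tp hTp k hD e he0 ?_ (ind (ES tb en T b ∪ K)) _ hacc ?_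
  · intro p x s hp hx hs h1 h2
    obtain ⟨U, hU, hU'⟩ := he' _ h1
    obtain ⟨W, hW, hW'⟩ := he' _ h2
    have h3 : rowT T (symmDiff U W) = Tp p + Tp s := by
      rw [rowT_symmDiff, hU', hW']
      ext j
      simp only [Pi.add_apply]
      have := CharTwo.add_self_eq_zero (Tp x j)
      linear_combination this
    have h4 : (symmDiff U W).card ≤ t := by
      by_contra hn
      have h5 := hE _ (not_le.1 hn) (symmDiff_le hU hW)
      rw [h3] at h5
      have h6 := hwadd (Tp p) (Tp s)
      have h7 : hw (Tp p) ≤ 2 * wt p := hw_Tp en T p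
      have h8 : hw (Tp s) ≤ 2 * wt s := hw_Tp en T s
      omega
    rw [← h3, he _ h4, ← hU', he _ hU, ← hW', he _ hW, ← sg_add, sum_symmDiff]
  · intro i
    obtain ⟨j, hj⟩ := ES_node tb en T hm i
    let g : ZMod 2 → ℝ := fun z => if i ∈ ES tb en T (Pi.single j z) ∪ K then 1 else 0
    have hg : ∀ β : Fin m → ZMod 2, ind (ES tb en T β ∪ K) i =
        (g 0 + g 1) / 2 + (g 0 - g 1) / 2 * sg (β j) := by
      intro β
      have h1 : ind (ES tb en T β ∪ K) i = g (β j) := by
        unfold ind
        rw [Set.indicator_apply]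
        show (if i ∈ ES tb en T β ∪ K then (1 : ℝ) else 0) =
          if i ∈ ES tb en T (Pi.single j (β j)) ∪ K then 1 else 0
        have h2 := hj β (Pi.single j (β j)) (by rw [Pi.single_eq_same])
        have h3 : i ∈ ES tb en T β ∪ K ↔ i ∈ ES tb en T (Pi.single j (β j)) ∪ K :=
          or_congr h2 Iff.rfl
        by_cases h4 : i ∈ ES tb en T β ∪ K
        · rw [if_pos h4, if_pos (h3.1 h4)]
        · rw [if_neg h4, if_neg (fun h => h4 (h3.2 h))]
      rw [h1]
      rcases zmod2_cases (β j) with h | h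
      · rw [h, sg_zero]; ring
      · rw [h, sg_one]; ring
    refine ⟨(g 0 + g 1) / 2, (g 0 - g 1) / 2 * sg (b j), rowT T {j}, ?_, ?_⟩
    · intro y
      show ind (ES tb en T b ∪ K) ((edPerm (bp tb (gg en T y))).symm i) = _
      have h1 : ind (ES tb en T b ∪ K) ((edPerm (bp tb (gg en T y))).symm i) =
          ind (ES tb en T (b + NS.A T y) ∪ K) i := by
        have h2 := ed_act_iff tb en T b y ((edPerm (bp tb (gg en T y))).symm i)
        rw [Equiv.apply_symm_apply] at h2
        have h2' := hK (gg en T y) ((edPerm (bp tb (gg en T y))).symm i)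
        rw [Equiv.apply_symm_apply] at h2'
        have h3 : i ∈ ES tb en T (b + NS.A T y) ∪ K ↔
            (edPerm (bp tb (gg en T y))).symm i ∈ ES tb en T b ∪ K := or_congr h2 h2'
        generalize (edPerm (bp tb (gg en T y))).symm i = i' at h3 ⊢
        unfold ind
        rw [Set.indicator_apply, Set.indicator_apply]
        by_cases h4 : i ∈ ES tb en T (b + NS.A T y) ∪ K
        · rw [if_pos h4, if_pos (h3.1 h4)]; rfl
        · rw [if_neg h4, if_neg (fun h => h4 (h3.2 h))]
      rw [h1, hg, Pi.add_apply, sg_add]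
      have h5 : pr (rowT T {j}) y = NS.A T y j := by
        rw [pr_rowT, Finset.sum_singleton]
      rw [h5]
      ring
    · rw [hg, he _ (by rw [Finset.card_singleton]; exact ht), Finset.sum_singleton, sg_add]
      have h2 := sg_mul_self (b j)
      linear_combination (-((g 0 - g 1) / 2) * sg (b' j)) * h2

end graph

end Pool.Agent.V7H65.GG
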