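import Pool.Agent.V7H65.GG.Graph

set_option autoImplicit false
set_option linter.unusedSectionVars false

/-! Bijections between the graphs of two systems. -/

namespace Pool.Agent.V7H65.GG

open Finset
open Pool.Agent.H550R2.Lift (V4)
open Pool.Agent.H30R2

theorem pairs4a : ∀ (b : ZMod 2) (p1 p2 p3 : V4) (i : Fin 3), p1 ≠ p2 → p1 ≠ p3 →
    p2 ≠ p3 → co b p1 i = co b p2 i → co b p3 i = co b p1 i + 1 := by
  unfold co
  decide +kernel

theorem pairs4b : ∀ (b : ZMod 2) (p1 p2 p3 p4 : V4) (i1 i2 : Fin 3), p1 ≠ p2 ∧ p1 ≠ p3 ∧ p1 ≠ p4 ∧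
    p2 ≠ p3 ∧ p2 ≠ p4 ∧ p3 ≠ p4 ∧ co b p1 i1 = co b p2 i1 ∧ co b p3 i2 = co b p4 i2 →
    i1 = i2 := by
  unfold co
  decide +kernel

theorem pairs4 (b : ZMod 2) (p1 p2 p3 p4 : V4) (i1 i2 : Fin 3) (h12 : p1 ≠ p2) (h13 : p1 ≠ p3)
    (h14 : p1 ≠ p4) (h23 : p2 ≠ p3) (h24 : p2 ≠ p4) (h34 : p3 ≠ p4)
    (h : co b p1 i1 = co b p2 i1) (h' : co b p3 i2 = co b p4 i2) :
    i1 = i2 ∧ co b p3 i2 = co b p1 i1 + 1 := by
  have h1 := pairs4b b p1 p2 p3 p4 i1 i2 ⟨h12, h13, h14, h23, h24, h34, h, h'⟩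
  refine ⟨h1, ?_⟩
  rw [← h1]
  exact pairs4a b p1 p2 p3 i1 h12 h13 h23 h

theorem four (i : Fin 3) : ∃ l1 l2 l3 l4 : V4, l1 ≠ l2 ∧ l1 ≠ l3 ∧ l1 ≠ l4 ∧ l2 ≠ l3 ∧ l2 ≠ l4 ∧
    l3 ≠ l4 ∧ co 0 l1 i = 0 ∧ co 0 l2 i = 0 ∧ co 0 l3 i = 1 ∧ co 0 l4 i = 1 := by
  fin_cases i
  · exact ⟨(0, 0), (0, 1), (1, 0), (1, 1), by unfold co; decide⟩
  · exact ⟨(0, 0), (1, 0), (0, 1), (1, 1), by unfold co; decide⟩
  · exact ⟨(0, 0), (1, 1), (0, 1), (1, 0), by unfold co; decide⟩

theorem co_zero (i : Fin 3) : co 0 0 i = 0 := by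
  revert i
  unfold co
  decide

theorem co_sum (b : ZMod 2) (l : V4) : ∑ i, co b l i = b := by
  revert b l
  unfold co
  decide

section graph

variable {V : Type} {r q m D : ℕ} (tb : Fin r × Fin 4 ↪ V) (en : BI q m D ↪ Fin r)
  (T : Fin m × Fin 3 → Fin q)

/-- the equation of an edge -/
def ow : EI m D → Fin m
  | .inl (j, _, _) => j
  | .inr (.inl (j, _)) => j
  | .inr (.inr (j, _)) => j

theorem nb_qv {b : Fin m → ZMod 2} {j : Fin m} {l : V4} {u : V}
    (h : s(qv tb en j l, u) ∈ ES tb en T b) :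
    u = cz tb en j ∨ ∃ i, u = xv tb en (T (j, i)) (co (b j) l i) := by
  obtain ⟨x, hx⟩ := h
  rcases x with ⟨j', l', i⟩ | ⟨j', l'⟩ | ⟨j', s⟩
  · have h1 : s(qv tb en j' l', xv tb en (T (j', i)) (co (b j') l' i)) = s(qv tb en j l, u) := hx
    rw [Sym2.eq_iff] at h1
    rcases h1 with ⟨h1, h2⟩ | ⟨h1, h2⟩
    · obtain ⟨rfl, rfl⟩ := qv_inj tb en h1
      exact Or.inr ⟨i, h2.symm⟩
    · exact absurd h2.symm (qv_ne_xv tb en _ _ _ _)
  · have h1 : s(cz tb en j', qv tb en j' l') = s(qv tb en j l, u) := hx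
    rw [Sym2.eq_iff] at h1
    rcases h1 with ⟨h1, h2⟩ | ⟨h1, h2⟩
    · exact absurd h1 (cz_ne_qv tb en _ _ _)
    · obtain ⟨rfl, rfl⟩ := qv_inj tb en h2
      exact Or.inl h1.symm
  · have h1 : s(cz tb en j', lf tb en j' s) = s(qv tb en j l, u) := hx
    rw [Sym2.eq_iff] at h1
    rcases h1 with ⟨h1, h2⟩ | ⟨h1, h2⟩
    · exact absurd h1 (cz_ne_qv tb en _ _ _)
    · exact absurd h2 (lf_ne_qv tb en _ _ _ _)

theorem nb_cz {b : Fin m → ZMod 2} {j : Fin m} {u : V} (h : s(cz tb en j, u) ∈ ES tb en T b) :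
    (∃ l, u = qv tb en j l) ∨ ∃ s, u = lf tb en j s := by
  obtain ⟨x, hx⟩ := h
  rcases x with ⟨j', l', i⟩ | ⟨j', l'⟩ | ⟨j', s⟩
  · have h1 : s(qv tb en j' l', xv tb en (T (j', i)) (co (b j') l' i)) = s(cz tb en j, u) := hx
    rw [Sym2.eq_iff] at h1
    rcases h1 with ⟨h1, h2⟩ | ⟨h1, h2⟩
    · exact absurd h1.symm (cz_ne_qv tb en _ _ _)
    · exact absurd h2.symm (cz_ne_xv tb en _ _ _)
  · have h1 : s(cz tb en j', qv tb en j' l') = s(cz tb en j, u) := hx
    rw [Sym2.eq_iff] at h1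
    rcases h1 with ⟨h1, h2⟩ | ⟨h1, h2⟩
    · obtain rfl := cz_inj tb en h1
      exact Or.inl ⟨l', h2.symm⟩
    · exact absurd h2.symm (cz_ne_qv tb en _ _ _)
  · have h1 : s(cz tb en j', lf tb en j' s) = s(cz tb en j, u) := hx
    rw [Sym2.eq_iff] at h1
    rcases h1 with ⟨h1, h2⟩ | ⟨h1, h2⟩
    · obtain rfl := cz_inj tb en h1
      exact Or.inr ⟨s, h2.symm⟩
    · exact absurd h2.symm (cz_ne_lf tb en _ _ _)

theorem nb_lf {b : Fin m → ZMod 2} {j : Fin m} {s : Fin D} {u : V}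
    (h : s(lf tb en j s, u) ∈ ES tb en T b) : u = cz tb en j := by
  obtain ⟨x, hx⟩ := h
  rcases x with ⟨j', l', i⟩ | ⟨j', l'⟩ | ⟨j', s'⟩
  · have h1 : s(qv tb en j' l', xv tb en (T (j', i)) (co (b j') l' i)) = s(lf tb en j s, u) := hx
    rw [Sym2.eq_iff] at h1
    rcases h1 with ⟨h1, h2⟩ | ⟨h1, h2⟩
    · exact absurd h1.symm (lf_ne_qv tb en _ _ _ _)
    · exact absurd h2.symm (lf_ne_xv tb en _ _ _ _)
  · have h1 : s(cz tb en j', qv tb en j' l') = s(lf tb en j s, u) := hx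
    rw [Sym2.eq_iff] at h1
    rcases h1 with ⟨h1, h2⟩ | ⟨h1, h2⟩
    · exact absurd h1 (cz_ne_lf tb en _ _ _)
    · exact absurd h2.symm (lf_ne_qv tb en _ _ _ _)
  · have h1 : s(cz tb en j', lf tb en j' s') = s(lf tb en j s, u) := hx
    rw [Sym2.eq_iff] at h1
    rcases h1 with ⟨h1, h2⟩ | ⟨h1, h2⟩
    · exact absurd h1 (cz_ne_lf tb en _ _ _)
    · obtain ⟨rfl, rfl⟩ := lf_inj tb en h2
      exact h1.symm

theorem nb_xv {b : Fin m → ZMod 2} {v : Fin q} {a : ZMod 2} {u : V}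
    (h : s(xv tb en v a, u) ∈ ES tb en T b) :
    ∃ j l i, u = qv tb en j l ∧ T (j, i) = v ∧ co (b j) l i = a := by
  obtain ⟨x, hx⟩ := h
  rcases x with ⟨j', l', i⟩ | ⟨j', l'⟩ | ⟨j', s'⟩
  · have h1 : s(qv tb en j' l', xv tb en (T (j', i)) (co (b j') l' i)) = s(xv tb en v a, u) := hx
    rw [Sym2.eq_iff] at h1
    rcases h1 with ⟨h1, h2⟩ | ⟨h1, h2⟩
    · exact absurd h1 (qv_ne_xv tb en _ _ _ _)
    · obtain ⟨h3, h4⟩ := xv_inj tb en h2
      exact ⟨j', l', i, h1.symm, h3, h4⟩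
  · have h1 : s(cz tb en j', qv tb en j' l') = s(xv tb en v a, u) := hx
    rw [Sym2.eq_iff] at h1
    rcases h1 with ⟨h1, h2⟩ | ⟨h1, h2⟩
    · exact absurd h1 (cz_ne_xv tb en _ _ _)
    · exact absurd h2 (qv_ne_xv tb en _ _ _ _)
  · have h1 : s(cz tb en j', lf tb en j' s') = s(xv tb en v a, u) := hx
    rw [Sym2.eq_iff] at h1
    rcases h1 with ⟨h1, h2⟩ | ⟨h1, h2⟩
    · exact absurd h1 (cz_ne_xv tb en _ _ _)
    · exact absurd h2 (lf_ne_xv tb en _ _ _ _)

/-- All edges of the equation `j` are kept. -/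
def Kept (b : Fin m → ZMod 2) (φ : V ≃ V) (j : Fin m) : Prop :=
  ∀ x : EI m D, ow x = j → s(φ (ed tb en T 0 x).1, φ (ed tb en T 0 x).2) ∈ ES tb en T b

variable {tb en T}

theorem kept_qx {b : Fin m → ZMod 2} {φ : V ≃ V} {j : Fin m} (h : Kept tb en T b φ j) (l : V4)
    (i : Fin 3) : s(φ (qv tb en j l), φ (xv tb en (T (j, i)) (co 0 l i))) ∈ ES tb en T b :=
  h (Sum.inl (j, l, i)) rfl

theorem kept_cq {b : Fin m → ZMod 2} {φ : V ≃ V} {j : Fin m} (h : Kept tb en T b φ j) (l : V4) :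
    s(φ (cz tb en j), φ (qv tb en j l)) ∈ ES tb en T b :=
  h (Sum.inr (Sum.inl (j, l))) rfl

theorem kept_cl {b : Fin m → ZMod 2} {φ : V ≃ V} {j : Fin m} (h : Kept tb en T b φ j) (s : Fin D) :
    s(φ (cz tb en j), φ (lf tb en j s)) ∈ ES tb en T b :=
  h (Sum.inr (Sum.inr (j, s))) rfl

theorem cz_cases (hD : 0 < D) {b : Fin m → ZMod 2} {φ : V ≃ V} {j : Fin m}
    (h : Kept tb en T b φ j) : (∃ j', φ (cz tb en j) = cz tb en j') ∨
      ∃ p : Fin q × ZMod 2, φ (cz tb en j) = xv tb en p.1 p.2 ∧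
        4 + D ≤ (univ.filter fun y : Fin m × V4 × Fin 3 =>
          (T (y.1, y.2.2), co (b y.1) y.2.1 y.2.2) = p).card := by
  classical
  let nb : V4 ⊕ Fin D → V := Sum.elim (fun l => φ (qv tb en j l)) (fun s => φ (lf tb en j s))
  have hnb : ∀ y, s(φ (cz tb en j), nb y) ∈ ES tb en T b := by
    rintro (l | s)
    · exact kept_cq h l
    · exact kept_cl h s
  have hinj : Function.Injective nb := by
    rintro (l | s) (l' | s') he
    · exact congrArg Sum.inl (qv_inj tb en (φ.injective he)).2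
    · exact absurd (φ.injective he).symm (lf_ne_qv tb en _ _ _ _)
    · exact absurd (φ.injective he) (lf_ne_qv tb en _ _ _ _)
    · exact congrArg Sum.inr (lf_inj tb en (φ.injective he)).2
  have hcard : Fintype.card (V4 ⊕ Fin D) = 4 + D := by
    rw [Fintype.card_sum, Fintype.card_fin]
    rfl
  obtain ⟨w, hw⟩ : ∃ w, w = φ (cz tb en j) := ⟨_, rfl⟩
  rw [← hw] at hnb ⊢
  have hkind : (∃ j', w = cz tb en j') ∨ (∃ j' l', w = qv tb en j' l') ∨
      (∃ j' s', w = lf tb en j' s') ∨ ∃ v a, w = xv tb en v a := by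
    obtain ⟨x, hx⟩ := hnb (Sum.inl 0)
    rcases x with ⟨j', l', i⟩ | ⟨j', l'⟩ | ⟨j', s'⟩
    · have h1 : s(qv tb en j' l', xv tb en (T (j', i)) (co (b j') l' i)) =
        s(w, nb (Sum.inl 0)) := hx
      rw [Sym2.eq_iff] at h1
      rcases h1 with ⟨h1, h2⟩ | ⟨h1, h2⟩
      · exact Or.inr (Or.inl ⟨_, _, h1.symm⟩)
      · exact Or.inr (Or.inr (Or.inr ⟨_, _, h2.symm⟩))
    · have h1 : s(cz tb en j', qv tb en j' l') = s(w, nb (Sum.inl 0)) := hx
      rw [Sym2.eq_iff] at h1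
      rcases h1 with ⟨h1, h2⟩ | ⟨h1, h2⟩
      · exact Or.inl ⟨_, h1.symm⟩
      · exact Or.inr (Or.inl ⟨_, _, h2.symm⟩)
    · have h1 : s(cz tb en j', lf tb en j' s') = s(w, nb (Sum.inl 0)) := hx
      rw [Sym2.eq_iff] at h1
      rcases h1 with ⟨h1, h2⟩ | ⟨h1, h2⟩
      · exact Or.inl ⟨_, h1.symm⟩
      · exact Or.inr (Or.inr (Or.inl ⟨_, _, h2.symm⟩))
  rcases hkind with h1 | ⟨j', l', rfl⟩ | ⟨j', s', rfl⟩ | ⟨v, a, rfl⟩
  · exact Or.inl h1
  · exfalso
    have h2 : ∀ y, ∃ o : Option (Fin 3), nb y = match o with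
        | none => cz tb en j'
        | some i => xv tb en (T (j', i)) (co (b j') l' i) := by
      intro y
      rcases nb_qv tb en T (hnb y) with h3 | ⟨i, h3⟩
      · exact ⟨none, h3⟩
      · exact ⟨some i, h3⟩
    choose f hf using h2
    have hfi : Function.Injective f := by
      intro y y' he
      apply hinj
      rw [hf y, hf y', he]
    have h3 := Fintype.card_le_of_injective f hfi
    rw [hcard, Fintype.card_option, Fintype.card_fin] at h3
    omega
  · exfalso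
    have h2 := nb_lf tb en T (hnb (Sum.inl (0, 0)))
    have h3 := nb_lf tb en T (hnb (Sum.inl (0, 1)))
    have h4 := hinj (h2.trans h3.symm)
    simp at h4
  · refine Or.inr ⟨(v, a), rfl, ?_⟩
    have h2 : ∀ y, ∃ o : Fin m × V4 × Fin 3, nb y = qv tb en o.1 o.2.1 ∧
        (T (o.1, o.2.2), co (b o.1) o.2.1 o.2.2) = (v, a) := by
      intro y
      obtain ⟨j', l', i, h3, h4, h5⟩ := nb_xv tb en T (hnb y)
      exact ⟨(j', l', i), h3, by rw [h4, h5]⟩
    choose f hf using h2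
    have hfi : Function.Injective f := by
      intro y y' he
      apply hinj
      rw [(hf y).1, (hf y').1, he]
    rw [← hcard, ← Finset.card_univ, ← Finset.card_image_of_injective univ hfi]
    apply Finset.card_le_card
    intro o ho
    rw [Finset.mem_image] at ho
    obtain ⟨y, -, rfl⟩ := ho
    rw [Finset.mem_filter]
    exact ⟨mem_univ _, (hf y).2⟩

open Classical in
/-- the assignment read off from a bijection -/
noncomputable def asg (tb : Fin r × Fin 4 ↪ V) (en : BI q m D ↪ Fin r) (φ : V ≃ V) (w : Fin q) :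
    ZMod 2 := if ∃ v, φ (xv tb en v 0) = xv tb en w 1 then 1 else 0

theorem asg_eq {φ : V ≃ V} {v w : Fin q} {a' : ZMod 2}
    (h : ∀ a, φ (xv tb en v a) = xv tb en w (a' + a)) : asg tb en φ w = a' := by
  unfold asg
  rcases H550R2.Lift.zmod2_cases a' with h1 | h1
  · rw [if_neg, h1]
    rintro ⟨v', hv'⟩
    have h2 := h 1
    rw [h1, zero_add, ← hv'] at h2
    have h3 := (xv_inj tb en (φ.injective h2)).2
    exact absurd h3 (by decide)
  · rw [if_pos, h1]
    refine ⟨v, ?_⟩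
    rw [h 0, h1, add_zero]

theorem nice_eq (hT : ∀ j, Function.Injective fun l => T (j, l)) {b : Fin m → ZMod 2} {φ : V ≃ V}
    {j σ : Fin m} (hk : Kept tb en T b φ j) (hσ : φ (cz tb en j) = cz tb en σ) :
    ∑ i, asg tb en φ (T (σ, i)) = b σ := by
  have hlam : ∀ l, ∃ l', φ (qv tb en j l) = qv tb en σ l' := by
    intro l
    have h1 := kept_cq hk l
    rw [hσ] at h1
    rcases nb_cz tb en T h1 with h2 | ⟨s, h2⟩
    · exact h2
    · exfalso
      have h3 := kept_qx hk l 0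
      rw [h2] at h3
      have h4 := nb_lf tb en T h3
      rw [← hσ] at h4
      exact cz_ne_xv tb en _ _ _ (φ.injective h4).symm
  choose lam hlam using hlam
  have hli : Function.Injective lam := by
    intro l l' h
    have h1 := hlam l
    rw [h, ← hlam l'] at h1
    exact (qv_inj tb en (φ.injective h1)).2
  have hι : ∀ l i, ∃ i', φ (xv tb en (T (j, i)) (co 0 l i)) =
      xv tb en (T (σ, i')) (co (b σ) (lam l) i') := by
    intro l i
    have h1 := kept_qx hk l i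
    rw [hlam] at h1
    rcases nb_qv tb en T h1 with h2 | h2
    · exfalso
      rw [← hσ] at h2
      exact cz_ne_xv tb en _ _ _ (φ.injective h2).symm
    · exact h2
  choose ι hι using hι
  have huniq : ∀ {i1 i2 : Fin 3} {a1 a2 : ZMod 2},
      xv tb en (T (σ, i1)) a1 = xv tb en (T (σ, i2)) a2 → i1 = i2 ∧ a1 = a2 := by
    intro i1 i2 a1 a2 h
    obtain ⟨h1, h2⟩ := xv_inj tb en h
    exact ⟨hT σ h1, h2⟩
  have key : ∀ i, ∃ (i' : Fin 3) (a' : ZMod 2),
      (∀ a, φ (xv tb en (T (j, i)) a) = xv tb en (T (σ, i')) (a' + a)) ∧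
      co (b σ) (lam 0) i' = a' := by
    intro i
    obtain ⟨l1, l2, l3, l4, h12, h13, h14, h23, h24, h34, e1, e2, e3, e4⟩ := four i
    have f1 := hι l1 i
    have f2 := hι l2 i
    have f3 := hι l3 i
    have f4 := hι l4 i
    rw [e1] at f1
    rw [e2] at f2
    rw [e3] at f3
    rw [e4] at f4
    obtain ⟨g1, g2⟩ := huniq (f1.symm.trans f2)
    obtain ⟨g3, g4⟩ := huniq (f3.symm.trans f4)
    rw [← g1] at g2
    rw [← g3] at g4
    obtain ⟨g5, g6⟩ := pairs4 (b σ) (lam l1) (lam l2) (lam l3) (lam l4) (ι l1 i) (ι l3 i)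
      (hli.ne h12) (hli.ne h13) (hli.ne h14) (hli.ne h23) (hli.ne h24) (hli.ne h34) g2 g4
    have hall : ∀ a, φ (xv tb en (T (j, i)) a) =
        xv tb en (T (σ, ι l1 i)) (co (b σ) (lam l1) (ι l1 i) + a) := by
      intro a
      rcases H550R2.Lift.zmod2_cases a with rfl | rfl
      · rw [add_zero, f1]
      · rw [f3, g6, g5]
    refine ⟨ι l1 i, co (b σ) (lam l1) (ι l1 i), hall, ?_⟩
    have f0 := hι 0 i
    rw [co_zero, f1] at f0
    obtain ⟨g7, g8⟩ := huniq f0
    rw [g8, ← g7]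
  choose κ α hκ hα using key
  have hκi : Function.Injective κ := by
    intro i i' h
    have h1 := hκ i 0
    have h2 := hκ i' (α i + α i')
    rw [← h] at h2
    have h3 : α i' + (α i + α i') = α i + 0 := by
      have := CharTwo.add_self_eq_zero (α i')
      linear_combination this
    rw [h3, ← h1] at h2
    exact hT j (xv_inj tb en (φ.injective h2)).1.symm
  have hκb : Function.Bijective κ := Finite.injective_iff_bijective.1 hκi
  calc ∑ i, asg tb en φ (T (σ, i)) = ∑ i, asg tb en φ (T (σ, κ i)) :=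
        (hκb.sum_comp fun i => asg tb en φ (T (σ, i))).symm
    _ = ∑ i, co (b σ) (lam 0) (κ i) := Finset.sum_congr rfl fun i _ => by
        rw [asg_eq (hκ i), hα]
    _ = ∑ i, co (b σ) (lam 0) i := hκb.sum_comp fun i => co (b σ) (lam 0) i
    _ = b σ := co_sum _ _

open Classical in
/-- **Soundness.** -/
theorem sound (hT : ∀ j, Function.Injective fun l => T (j, l)) (hD : 0 < D)
    {b : Fin m → ZMod 2} (hb : ∀ a, 9 * m ≤ 20 * NS.wt (NS.A T a + b)) (φ : V ≃ V) :
    9 * m * (4 + D) ≤ 20 * (4 + D) * (univ.filter fun x : EI m D =>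
      s(φ (ed tb en T 0 x).1, φ (ed tb en T 0 x).2) ∉ ES tb en T b).card + 20 * (12 * m) := by
  obtain ⟨L, hL⟩ : ∃ L : Finset (EI m D), L = univ.filter fun x : EI m D =>
      s(φ (ed tb en T 0 x).1, φ (ed tb en T 0 x).2) ∉ ES tb en T b := ⟨_, rfl⟩
  obtain ⟨NK, hNK⟩ : ∃ S : Finset (Fin m), S = univ.filter fun j => ¬ Kept tb en T b φ j :=
    ⟨_, rfl⟩
  obtain ⟨X, hX⟩ : ∃ S : Finset (Fin m), S = univ.filter fun j =>
      ∃ p : Fin q × ZMod 2, φ (cz tb en j) = xv tb en p.1 p.2 ∧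
        4 + D ≤ (univ.filter fun y : Fin m × V4 × Fin 3 =>
          (T (y.1, y.2.2), co (b y.1) y.2.1 y.2.2) = p).card := ⟨_, rfl⟩
  obtain ⟨N, hN⟩ : ∃ S : Finset (Fin m), S = univ.filter fun j =>
      Kept tb en T b φ j ∧ ∃ j', φ (cz tb en j) = cz tb en j' := ⟨_, rfl⟩
  rw [← hL]
  have h1 : m ≤ NK.card + X.card + N.card := by
    have hsub : (univ : Finset (Fin m)) ⊆ NK ∪ X ∪ N := by
      intro j _
      rw [Finset.mem_union, Finset.mem_union, hNK, hX, hN, Finset.mem_filter, Finset.mem_filter,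
        Finset.mem_filter]
      by_cases hk : Kept tb en T b φ j
      · rcases cz_cases hD hk with h | h
        · exact Or.inr ⟨mem_univ _, hk, h⟩
        · exact Or.inl (Or.inr ⟨mem_univ _, h⟩)
      · exact Or.inl (Or.inl ⟨mem_univ _, hk⟩)
    have h2 := Finset.card_le_card hsub
    rw [Finset.card_univ, Fintype.card_fin] at h2
    have h3 := Finset.card_union_le (NK ∪ X) N
    have h4 := Finset.card_union_le NK X
    omega
  have h2 : NK.card ≤ L.card := by
    refine Finset.card_le_card_of_forall_subsingleton (fun j x => ow x = j) ?_ ?_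
    · intro j hj
      rw [hNK, Finset.mem_filter] at hj
      have h3 := hj.2
      unfold Kept at h3
      rw [not_forall] at h3
      obtain ⟨x, hx⟩ := h3
      rw [Classical.not_imp] at hx
      refine ⟨x, ?_, hx.1⟩
      rw [hL, Finset.mem_filter]
      exact ⟨mem_univ _, hx.2⟩
    · intro x _ j hj j' hj'
      exact hj.2.symm.trans hj'.2
  have h3 : (4 + D) * X.card ≤ 12 * m := by
    obtain ⟨HV, hHV⟩ : ∃ S : Finset (Fin q × ZMod 2), S = univ.filter fun p =>
        4 + D ≤ (univ.filter fun y : Fin m × V4 × Fin 3 =>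
          (T (y.1, y.2.2), co (b y.1) y.2.1 y.2.2) = p).card := ⟨_, rfl⟩
    have h4 : X.card ≤ HV.card := by
      refine Finset.card_le_card_of_forall_subsingleton
        (fun j p => φ (cz tb en j) = xv tb en p.1 p.2) ?_ ?_
      · intro j hj
        rw [hX, Finset.mem_filter] at hj
        obtain ⟨-, p, hp1, hp2⟩ := hj
        refine ⟨p, ?_, hp1⟩
        rw [hHV, Finset.mem_filter]
        exact ⟨mem_univ _, hp2⟩
      · intro p _ j hj j' hj'
        exact cz_inj tb en (φ.injective (hj.2.trans hj'.2.symm))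
    have h5 : ∑ p ∈ HV, (univ.filter fun y : Fin m × V4 × Fin 3 =>
          (T (y.1, y.2.2), co (b y.1) y.2.1 y.2.2) = p).card ≤ 12 * m := by
      calc ∑ p ∈ HV, (univ.filter fun y : Fin m × V4 × Fin 3 =>
          (T (y.1, y.2.2), co (b y.1) y.2.1 y.2.2) = p).card
          ≤ ∑ p, (univ.filter fun y : Fin m × V4 × Fin 3 =>
          (T (y.1, y.2.2), co (b y.1) y.2.1 y.2.2) = p).card :=
            Finset.sum_le_univ_sum_of_nonneg fun _ => Nat.zero_le _
        _ = Fintype.card (Fin m × V4 × Fin 3) := by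
            rw [← Finset.card_univ]
            exact (Finset.card_eq_sum_card_fiberwise fun y _ => mem_univ _).symm
        _ = 12 * m := by
            rw [Fintype.card_prod, Fintype.card_prod, Fintype.card_fin, Fintype.card_fin]
            have h6 : Fintype.card V4 = 4 := rfl
            rw [h6]
            ring
    have h6 : (4 + D) * HV.card ≤ ∑ p ∈ HV, (univ.filter fun y : Fin m × V4 × Fin 3 =>
          (T (y.1, y.2.2), co (b y.1) y.2.1 y.2.2) = p).card := by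
      rw [mul_comm, ← smul_eq_mul]
      refine Finset.card_nsmul_le_sum _ _ _ fun p hp => ?_
      rw [hHV, Finset.mem_filter] at hp
      exact hp.2
    exact (Nat.mul_le_mul_left _ h4).trans (h6.trans h5)
  have h4 : 20 * N.card ≤ 11 * m := by
    have h5 : N.card ≤ (univ.filter fun j' : Fin m =>
        ¬ (NS.A T (asg tb en φ) + b) j' ≠ 0).card := by
      refine Finset.card_le_card_of_forall_subsingleton
        (fun j j' => φ (cz tb en j) = cz tb en j') ?_ ?_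
      · intro j hj
        rw [hN, Finset.mem_filter] at hj
        obtain ⟨-, hk, σ, hσ⟩ := hj
        refine ⟨σ, ?_, hσ⟩
        rw [Finset.mem_filter]
        refine ⟨mem_univ _, ?_⟩
        rw [not_not, Pi.add_apply, NS.A_apply, nice_eq hT hk hσ]
        exact CharTwo.add_self_eq_zero _
      · intro p _ j hj j' hj'
        exact cz_inj tb en (φ.injective (hj.2.trans hj'.2.symm))
    have h6 := Finset.card_filter_add_card_filter_not (s := (univ : Finset (Fin m)))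
      (fun j' => (NS.A T (asg tb en φ) + b) j' ≠ 0)
    rw [Finset.card_univ, Fintype.card_fin] at h6
    have h7 := hb (asg tb en φ)
    have h8 : NS.wt (NS.A T (asg tb en φ) + b) =
        (univ.filter fun j' : Fin m => (NS.A T (asg tb en φ) + b) j' ≠ 0).card := by
      unfold NS.wt
      rfl
    rw [h8] at h7
    omega
  have h5 : 9 * m ≤ 20 * L.card + 20 * X.card := by omega
  calc 9 * m * (4 + D) ≤ (20 * L.card + 20 * X.card) * (4 + D) := Nat.mul_le_mul_right _ h5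
    _ = 20 * (4 + D) * L.card + 20 * ((4 + D) * X.card) := by ring
    _ ≤ _ := by
        have := Nat.mul_le_mul_left 20 h3
        omega

end graph

end Pool.Agent.V7H65.GG
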